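import Pool.Agent.TH221.Defs

set_option autoImplicit false

open MeasureTheory Set Filter Topology Metric
open scoped ENNReal NNReal ContDiff

namespace Pool.Agent.TH221

namespace J144

variable {n : ℕ}

lemma ibp {f φ : Eu n → ℝ} (hf : ContDiff ℝ 1 f) (hφ : ContDiff ℝ ∞ φ)
    (hφc : HasCompactSupport φ) (v : Eu n) :
    ∫ x, f x * fderiv ℝ φ x v = - ∫ x, φ x * fderiv ℝ f x v := by
  have hf' : Continuous (fun x => fderiv ℝ f x v) :=
    (hf.continuous_fderiv (by simp)).clm_apply continuous_const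
  have hφ' : Continuous (fun x => fderiv ℝ φ x v) :=
    (hφ.continuous_fderiv (by simp)).clm_apply continuous_const
  have h := integral_mul_fderiv_eq_neg_fderiv_mul_of_integrable (f := f) (g := φ) (v := v)
    (μ := (volume : Measure (Eu n)))
    ((hf'.mul hφ.continuous).integrable_of_hasCompactSupport hφc.mul_left)
    ((hf.continuous.mul hφ').integrable_of_hasCompactSupport ((hφc.fderiv_apply ℝ v).mul_left))
    ((hf.continuous.mul hφ.continuous).integrable_of_hasCompactSupport hφc.mul_left)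
    (fun x _ => hf.differentiable (by simp) x) (fun x _ => hφ.differentiable (by simp) x)
  rw [h]
  congr 1
  exact integral_congr_ae (.of_forall fun x => by simp [mul_comm])

lemma en0 : ‖(0 : Eu n →L[ℝ] ℝ)‖ₑ = 0 := by
  rw [← ofReal_norm, norm_zero, ENNReal.ofReal_zero]

/-- the scaled bump -/
noncomputable def bp {c : Eu n} (β : ContDiffBump c) (x0 : Eu n) (r : ℝ) (x : Eu n) : ℝ :=
  β (r⁻¹ • (x - x0))

variable {c : Eu n} (β : ContDiffBump c) (x0 : Eu n)

lemma bp_contDiff (r : ℝ) : ContDiff ℝ ∞ (bp β x0 r) := by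
  unfold bp
  exact β.contDiff.comp (by fun_prop)

lemma bp_fderiv (r : ℝ) (x : Eu n) :
    fderiv ℝ (bp β x0 r) x = r⁻¹ • fderiv ℝ β (r⁻¹ • (x - x0)) := by
  have h1 : HasFDerivAt (fun x : Eu n => r⁻¹ • (x - x0)) (r⁻¹ • ContinuousLinearMap.id ℝ (Eu n)) x :=
    ((hasFDerivAt_id x).sub_const x0).const_smul r⁻¹
  have h2 : HasFDerivAt β (fderiv ℝ β (r⁻¹ • (x - x0))) (r⁻¹ • (x - x0)) :=
    ((β.contDiff (n := 1)).differentiable (by simp) _).hasFDerivAt
  have h3 := h2.comp x h1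
  have : fderiv ℝ (bp β x0 r) x = _ := h3.fderiv
  rw [this]
  ext v
  simp

lemma cfb (a r : ℝ) : Continuous (fun x => a • fderiv ℝ (bp β x0 r) x) := by
  have h : Continuous (fun x => fderiv ℝ (bp β x0 r) x) :=
    (bp_contDiff β x0 r).continuous_fderiv (by simp)
  fun_prop

lemma bp_le_one (r : ℝ) (x : Eu n) : bp β x0 r x ≤ 1 := β.le_one
lemma bp_nonneg (r : ℝ) (x : Eu n) : 0 ≤ bp β x0 r x := β.nonneg

/-- the ball carrying the scaled bump -/
def bl {c : Eu n} (β : ContDiffBump c) (x0 : Eu n) (r : ℝ) : Set (Eu n) :=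
  {x | r⁻¹ • (x - x0) ∈ closedBall c β.rOut}

lemma bl_measurable (r : ℝ) : MeasurableSet (bl β x0 r) := by
  have : IsClosed (bl β x0 r) := by
    unfold bl
    exact isClosed_closedBall.preimage (by fun_prop)
  exact this.measurableSet

lemma bp_zero {r : ℝ} {x : Eu n} (h : x ∉ bl β x0 r) : bp β x0 r x = 0 := by
  have : r⁻¹ • (x - x0) ∉ closedBall c β.rOut := h
  apply β.zero_of_le_dist
  rw [mem_closedBall, not_le] at this
  exact this.le

lemma fd_zero {y : Eu n} (h : y ∉ closedBall c β.rOut) : fderiv ℝ β y = 0 := by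
  rw [← β.tsupport_eq] at h
  have := support_fderiv_subset ℝ (f := β)
  by_contra h2
  exact h (this h2)

lemma bp_fderiv_zero {r : ℝ} {x : Eu n} (h : x ∉ bl β x0 r) : fderiv ℝ (bp β x0 r) x = 0 := by
  rw [bp_fderiv, fd_zero β h, smul_zero]

lemma bl_dist {r : ℝ} (hr : 0 < r) (hc : ‖c‖ = 3/2) (hβ : β.rOut = 1/4) {x : Eu n}
    (h : x ∈ bl β x0 r) : 5/4 * r ≤ ‖x - x0‖ ∧ ‖x - x0‖ ≤ 7/4 * r := by
  have h1 : ‖r⁻¹ • (x - x0) - c‖ ≤ 1/4 := by
    have : r⁻¹ • (x - x0) ∈ closedBall c β.rOut := h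
    rw [mem_closedBall, dist_eq_norm, hβ] at this
    exact this
  have h2 : ‖r⁻¹ • (x - x0)‖ = r⁻¹ * ‖x - x0‖ := by
    rw [norm_smul, Real.norm_of_nonneg (by positivity)]
  have h3 : |‖r⁻¹ • (x - x0)‖ - ‖c‖| ≤ 1/4 := (abs_norm_sub_norm_le _ _).trans h1
  rw [h2, hc, abs_le] at h3
  have h4 : ‖x - x0‖ = r * (r⁻¹ * ‖x - x0‖) := by field_simp
  constructor
  · rw [h4]; nlinarith [h3.1]
  · rw [h4]; nlinarith [h3.2]

/-- scale invariance of the energy -/
lemma energy_scale (F : Eu n → ℝ≥0∞) (hF : Measurable F) {r : ℝ} (hr : 0 < r) :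
    ∫⁻ x, F (r⁻¹ • (x - x0)) = ENNReal.ofReal r ^ n * ∫⁻ x, F x := by
  have hr' : r⁻¹ ≠ 0 := by positivity
  rw [lintegral_sub_right_eq_self (fun y => F (r⁻¹ • y)) x0]
  have h := MeasureTheory.Measure.map_addHaar_smul (volume : Measure (Eu n)) hr'
  have h2 : ∫⁻ x, F (r⁻¹ • x) = ∫⁻ x, F x ∂(Measure.map (r⁻¹ • ·) (volume : Measure (Eu n))) := by
    rw [lintegral_map hF (by fun_prop)]
  rw [h2, h, lintegral_smul_measure]
  congr 1
  rw [finrank_euclideanSpace_fin, inv_pow, inv_inv, abs_of_pos (by positivity), 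
    ENNReal.ofReal_pow hr.le]

/-- the open annulus carrying the scaled bump -/
def An (x0 : Eu n) (r : ℝ) : Set (Eu n) := {x | r < ‖x - x0‖ ∧ ‖x - x0‖ < 2 * r}

omit β in
lemma An_open (r : ℝ) : IsOpen (An x0 r) := by
  have h1 : IsOpen {x : Eu n | r < ‖x - x0‖} := isOpen_lt (by fun_prop) (by fun_prop)
  have h2 : IsOpen {x : Eu n | ‖x - x0‖ < 2 * r} := isOpen_lt (by fun_prop) (by fun_prop)
  exact h1.inter h2

lemma bl_sub {r : ℝ} (hr : 0 < r) (hc : ‖c‖ = 3/2) (hβ : β.rOut = 1/4) :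
    bl β x0 r ⊆ An x0 r := by
  intro x hx
  have := bl_dist β x0 hr hc hβ hx
  constructor <;> linarith [this.1, this.2]

lemma bp_energy {r : ℝ} (hr : 0 < r) :
    ∫⁻ x, ‖fderiv ℝ (bp β x0 r) x‖ₑ ^ n = ∫⁻ x, ‖fderiv ℝ β x‖ₑ ^ n := by
  have hcont : Continuous (fun x => fderiv ℝ β x) :=
    (β.contDiff (n := 1)).continuous_fderiv (by simp)
  have h1 : ∀ x, ‖fderiv ℝ (bp β x0 r) x‖ₑ ^ n =
      ENNReal.ofReal r⁻¹ ^ n * (fun y => ‖fderiv ℝ β y‖ₑ ^ n) (r⁻¹ • (x - x0)) := by
    intro x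
    rw [bp_fderiv, enorm_smul, mul_pow, Real.enorm_of_nonneg (by positivity)]
  simp_rw [h1]
  have hm : Measurable (fun y : Eu n => ‖fderiv ℝ β y‖ₑ ^ n) :=
    (hcont.measurable.enorm).pow_const n
  rw [lintegral_const_mul _ (by fun_prop), energy_scale x0 _ hm hr, ← mul_assoc, ← mul_pow,
    ← ENNReal.ofReal_mul (by positivity), inv_mul_cancel₀ hr.ne', ENNReal.ofReal_one, one_pow,
    one_mul]

lemma energy_pos (hn : 2 ≤ n) (hc : ‖c‖ = 3/2) (hβ : β.rOut = 1/4) :
    (∫⁻ x, ‖fderiv ℝ β x‖ₑ ^ n) ≠ 0 := by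
  intro h
  have hcont : Continuous (fun x => fderiv ℝ β x) :=
    (β.contDiff (n := 1)).continuous_fderiv (by simp)
  have hm : Measurable (fun y : Eu n => ‖fderiv ℝ β y‖ₑ ^ n) :=
    (hcont.measurable.enorm).pow_const n
  rw [lintegral_eq_zero_iff hm] at h
  have h2 : (fun x => fderiv ℝ β x) =ᵐ[volume] (fun _ => 0) := by
    filter_upwards [h] with x hx
    have : ‖fderiv ℝ β x‖ₑ ^ n = 0 := hx
    have h3 := pow_eq_zero_iff (by omega : n ≠ 0) |>.1 this
    rw [← ofReal_norm, ENNReal.ofReal_eq_zero] at h3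
    exact norm_le_zero_iff.1 h3
  have h3 : (fun x => fderiv ℝ β x) = fun _ => 0 :=
    (hcont.ae_eq_iff_eq volume continuous_const).1 h2
  have h4 : β c = β 0 := by
    apply is_const_of_fderiv_eq_zero ((β.contDiff (n := 1)).differentiable (by simp))
    intro x
    exact congrFun h3 x
  have h5 : β c = 1 := β.one_of_mem_closedBall (by simp [β.rIn_pos.le])
  have h6 : β 0 = 0 := β.zero_of_le_dist (by rw [dist_eq_norm, zero_sub, norm_neg, hc, hβ]; norm_num)
  rw [h5, h6] at h4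
  exact one_ne_zero h4

/-- the data of the construction -/
structure Data {c : Eu n} (β : ContDiffBump c) (x0 : Eu n) (E : Set (Eu n)) (r : ℕ → ℝ) (a : ℕ → ℝ) :
    Prop where
  hn : 2 ≤ n
  hc : ‖c‖ = 3/2
  hβ : β.rOut = 1/4
  mem : x0 ∈ E
  closed : IsClosed E
  pos : ∀ j, 0 < r j
  half : ∀ j, r (j + 1) ≤ r j / 2
  dens : ∀ j, volume (Eᶜ ∩ closedBall x0 (2 * r j)) ≤
    (2⁻¹ : ℝ≥0∞) ^ j * volume (closedBall x0 (2 * r j))
  a0 : ∀ j, 0 ≤ a j
  a1 : ∀ j, a j ≤ 1
  an : Antitone a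
  alim : Tendsto a atTop (𝓝 0)
  apow : ∀ j, a j ^ n = ((j : ℝ) + 1)⁻¹

variable {E : Set (Eu n)} {r a : ℕ → ℝ} {x0}

namespace Data

variable {β} (D : Data β x0 E r a)
include D

lemma r_anti : Antitone r := by
  apply antitone_nat_of_succ_le
  intro j
  have := D.half j
  have := D.pos j
  linarith

lemma r_half {i j : ℕ} (h : i < j) : r j ≤ r i / 2 :=
  (D.r_anti (Nat.succ_le_of_lt h)).trans (D.half i)

lemma disj {i j : ℕ} (h : i ≠ j) {x : Eu n} (hi : x ∈ An x0 (r i)) : x ∉ An x0 (r j) := by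
  intro hj
  rcases lt_or_gt_of_ne h with h | h
  · have := D.r_half h
    linarith [hi.1, hj.2]
  · have := D.r_half h
    linarith [hj.1, hi.2]

lemma b_zero {j : ℕ} {x : Eu n} (h : x ∉ An x0 (r j)) : bp β x0 (r j) x = 0 :=
  bp_zero β x0 fun h2 => h (bl_sub β x0 (D.pos j) D.hc D.hβ h2)

lemma fb_zero {j : ℕ} {x : Eu n} (h : x ∉ An x0 (r j)) : fderiv ℝ (bp β x0 (r j)) x = 0 :=
  bp_fderiv_zero β x0 fun h2 => h (bl_sub β x0 (D.pos j) D.hc D.hβ h2)

end Data

/-- the function -/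
noncomputable def uu {c : Eu n} (β : ContDiffBump c) (x0 : Eu n) (r a : ℕ → ℝ) (x : Eu n) : ℝ :=
  ∑' j, a j * bp β x0 (r j) x

/-- its gradient -/
noncomputable def gg {c : Eu n} (β : ContDiffBump c) (x0 : Eu n) (r a : ℕ → ℝ) (x : Eu n) :
    Eu n →L[ℝ] ℝ :=
  ∑' j, a j • fderiv ℝ (bp β x0 (r j)) x

namespace Data

variable {β} (D : Data β x0 E r a)
include D

lemma uu_on {j : ℕ} {x : Eu n} (h : x ∈ An x0 (r j)) : uu β x0 r a x = a j * bp β x0 (r j) x := by
  unfold uu
  apply tsum_eq_single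
  intro i hi
  rw [D.b_zero (D.disj hi.symm h), mul_zero]

lemma uu_off {x : Eu n} (h : ∀ j, x ∉ An x0 (r j)) : uu β x0 r a x = 0 := by
  unfold uu
  simp [fun j => D.b_zero (h j)]

lemma gg_on {j : ℕ} {x : Eu n} (h : x ∈ An x0 (r j)) :
    gg β x0 r a x = a j • fderiv ℝ (bp β x0 (r j)) x := by
  unfold gg
  apply tsum_eq_single
  intro i hi
  rw [D.fb_zero (D.disj hi.symm h), smul_zero]

lemma gg_off {x : Eu n} (h : ∀ j, x ∉ An x0 (r j)) : gg β x0 r a x = 0 := by
  unfold gg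
  simp [fun j => D.fb_zero (h j)]

lemma sum_on {N j : ℕ} {x : Eu n} (h : x ∈ An x0 (r j)) :
    ∑ i ∈ Finset.range N, a i * bp β x0 (r i) x = if j < N then a j * bp β x0 (r j) x else 0 := by
  split_ifs with hj
  · apply Finset.sum_eq_single_of_mem j (Finset.mem_range.2 hj)
    intro i _ hi
    rw [D.b_zero (D.disj hi.symm h), mul_zero]
  · apply Finset.sum_eq_zero
    intro i hi
    have : i ≠ j := by
      rintro rfl
      exact hj (Finset.mem_range.1 hi)
    rw [D.b_zero (D.disj this.symm h), mul_zero]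

lemma sum_off {N : ℕ} {x : Eu n} (h : ∀ j, x ∉ An x0 (r j)) :
    ∑ i ∈ Finset.range N, a i * bp β x0 (r i) x = 0 := by
  apply Finset.sum_eq_zero
  intro i _
  rw [D.b_zero (h i), mul_zero]

lemma cont : Continuous (uu β x0 r a) := by
  apply continuous_of_uniform_approx_of_continuous
  intro U hU
  obtain ⟨ε, hε, hU⟩ := Metric.mem_uniformity_dist.1 hU
  obtain ⟨N, hN⟩ := ((tendsto_order.1 D.alim).2 ε hε).exists
  refine ⟨fun x => ∑ i ∈ Finset.range N, a i * bp β x0 (r i) x, ?_, ?_⟩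
  · refine continuous_finsetSum _ fun i _ => ?_
    exact continuous_const.mul (bp_contDiff β x0 (r i)).continuous
  · intro x
    apply hU
    by_cases hx : ∃ j, x ∈ An x0 (r j)
    · obtain ⟨j, hj⟩ := hx
      rw [D.uu_on hj]
      change dist _ (∑ i ∈ Finset.range N, a i * bp β x0 (r i) x) < ε
      rw [D.sum_on hj]
      split_ifs with h
      · simpa using hε
      · rw [dist_zero_right, Real.norm_of_nonneg (mul_nonneg (D.a0 j) (bp_nonneg β x0 _ _))]
        calc a j * bp β x0 (r j) x ≤ a j * 1 :=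
              mul_le_mul_of_nonneg_left (bp_le_one β x0 _ _) (D.a0 j)
          _ = a j := mul_one _
          _ ≤ a N := D.an (not_lt.1 h)
          _ < ε := hN
    · push Not at hx
      rw [D.uu_off hx]
      change dist _ (∑ i ∈ Finset.range N, a i * bp β x0 (r i) x) < ε
      rw [D.sum_off hx]
      simpa using hε

lemma supp : HasCompactSupport (uu β x0 r a) := by
  apply HasCompactSupport.intro (isCompact_closedBall x0 (2 * r 0))
  intro x hx
  apply D.uu_off
  intro j hj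
  apply hx
  rw [mem_closedBall, dist_eq_norm]
  have := D.r_anti (Nat.zero_le j)
  linarith [hj.2]

lemma gg_hasSum (x : Eu n) :
    Tendsto (fun N => ∑ i ∈ Finset.range N, a i • fderiv ℝ (bp β x0 (r i)) x) atTop
      (𝓝 (gg β x0 r a x)) := by
  by_cases hx : ∃ j, x ∈ An x0 (r j)
  · obtain ⟨j, hj⟩ := hx
    apply tendsto_const_nhds.congr'
    filter_upwards [eventually_gt_atTop j] with N hN
    rw [D.gg_on hj]
    symm
    apply Finset.sum_eq_single_of_mem j (Finset.mem_range.2 hN)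
    intro i _ hi
    rw [D.fb_zero (D.disj hi.symm hj), smul_zero]
  · push Not at hx
    rw [D.gg_off hx]
    apply tendsto_const_nhds.congr
    intro N
    symm
    apply Finset.sum_eq_zero
    intro i _
    rw [D.fb_zero (hx i), smul_zero]

lemma gg_meas : Measurable (gg β x0 r a) := by
  apply measurable_of_tendsto_metrizable (f := fun N x =>
    ∑ i ∈ Finset.range N, a i • fderiv ℝ (bp β x0 (r i)) x)
  · intro N
    have : Continuous (fun x => ∑ i ∈ Finset.range N, a i • fderiv ℝ (bp β x0 (r i)) x) := by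
      refine continuous_finsetSum _ fun i _ => ?_
      exact cfb β x0 (a i) (r i)
    exact this.measurable
  · rw [tendsto_pi_nhds]
    intro x
    exact D.gg_hasSum x

lemma gg_energy : ∫⁻ x in Eᶜ, ‖gg β x0 r a x‖ₑ ^ n < ⊤ := by
  have hn := D.hn
  have hcont : Continuous (fun x => fderiv ℝ β x) :=
    (β.contDiff (n := 1)).continuous_fderiv (by simp)
  obtain ⟨M, hM⟩ : ∃ M : ℝ, ∀ y, ‖fderiv ℝ β y‖ ≤ M := by
    obtain ⟨M, hM⟩ := (β.hasCompactSupport.fderiv ℝ).exists_bound_of_continuous hcont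
    exact ⟨M, hM⟩
  have hM0 : 0 ≤ M := (norm_nonneg _).trans (hM 0)
  have h1 : ∀ x, ‖gg β x0 r a x‖ₑ ^ n ≤ ∑' j, ‖a j • fderiv ℝ (bp β x0 (r j)) x‖ₑ ^ n := by
    intro x
    by_cases hx : ∃ j, x ∈ An x0 (r j)
    · obtain ⟨j, hj⟩ := hx
      rw [D.gg_on hj]
      exact ENNReal.le_tsum (f := fun j => ‖a j • fderiv ℝ (bp β x0 (r j)) x‖ₑ ^ n) j
    · push Not at hx
      rw [D.gg_off hx]
      simp [en0, show n ≠ 0 by omega]
  have hmeas : ∀ j, Measurable (fun x => ‖a j • fderiv ℝ (bp β x0 (r j)) x‖ₑ ^ n) := by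
    intro j
    have : Continuous (fun x => a j • fderiv ℝ (bp β x0 (r j)) x) :=
      cfb β x0 (a j) (r j)
    exact this.measurable.enorm.pow_const n
  have h2 : ∀ j, ∫⁻ x in Eᶜ, ‖a j • fderiv ℝ (bp β x0 (r j)) x‖ₑ ^ n ≤
      (ENNReal.ofReal (2 * M) ^ n * volume (ball (0 : Eu n) 1)) * (2⁻¹ : ℝ≥0∞) ^ j := by
    intro j
    have hr := D.pos j
    have h3 : ∀ x, ‖a j • fderiv ℝ (bp β x0 (r j)) x‖ₑ ^ n ≤
        (closedBall x0 (2 * r j)).indicator (fun _ => ENNReal.ofReal ((r j)⁻¹ * M) ^ n) x := by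
      intro x
      by_cases hx : x ∈ closedBall x0 (2 * r j)
      · rw [indicator_of_mem hx]
        apply pow_le_pow_left'
        rw [bp_fderiv, ← ofReal_norm]
        apply ENNReal.ofReal_le_ofReal
        rw [norm_smul, norm_smul, Real.norm_of_nonneg (D.a0 j),
          Real.norm_of_nonneg (by positivity : 0 ≤ (r j)⁻¹)]
        calc a j * ((r j)⁻¹ * ‖fderiv ℝ β ((r j)⁻¹ • (x - x0))‖) ≤
            1 * ((r j)⁻¹ * ‖fderiv ℝ β ((r j)⁻¹ • (x - x0))‖) :=
              mul_le_mul_of_nonneg_right (D.a1 j) (by positivity)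
          _ = (r j)⁻¹ * ‖fderiv ℝ β ((r j)⁻¹ • (x - x0))‖ := one_mul _
          _ ≤ (r j)⁻¹ * M := mul_le_mul_of_nonneg_left (hM _) (by positivity)
      · rw [indicator_of_notMem hx]
        have : x ∉ An x0 (r j) := by
          intro h
          apply hx
          rw [mem_closedBall, dist_eq_norm]
          exact h.2.le
        rw [D.fb_zero this]
        simp [en0, show n ≠ 0 by omega]
    calc ∫⁻ x in Eᶜ, ‖a j • fderiv ℝ (bp β x0 (r j)) x‖ₑ ^ n
        ≤ ∫⁻ x in Eᶜ, (closedBall x0 (2 * r j)).indicator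
            (fun _ => ENNReal.ofReal ((r j)⁻¹ * M) ^ n) x := lintegral_mono h3
      _ = ENNReal.ofReal ((r j)⁻¹ * M) ^ n * volume (Eᶜ ∩ closedBall x0 (2 * r j)) := by
          rw [lintegral_indicator isClosed_closedBall.measurableSet, setLIntegral_const,
            Measure.restrict_apply isClosed_closedBall.measurableSet, inter_comm]
      _ ≤ ENNReal.ofReal ((r j)⁻¹ * M) ^ n *
            ((2⁻¹ : ℝ≥0∞) ^ j * volume (closedBall x0 (2 * r j))) := by
          gcongr
          exact D.dens j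
      _ = (ENNReal.ofReal (2 * M) ^ n * volume (ball (0 : Eu n) 1)) * (2⁻¹ : ℝ≥0∞) ^ j := by
          rw [Measure.addHaar_closedBall volume x0 (by positivity : 0 ≤ 2 * r j),
            finrank_euclideanSpace_fin, ENNReal.ofReal_pow (by positivity)]
          have : ENNReal.ofReal ((r j)⁻¹ * M) ^ n * ENNReal.ofReal (2 * r j) ^ n =
              ENNReal.ofReal (2 * M) ^ n := by
            rw [← mul_pow, ← ENNReal.ofReal_mul (by positivity)]
            congr 2
            field_simp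
          rw [← this]
          ring
  calc ∫⁻ x in Eᶜ, ‖gg β x0 r a x‖ₑ ^ n
      ≤ ∫⁻ x in Eᶜ, ∑' j, ‖a j • fderiv ℝ (bp β x0 (r j)) x‖ₑ ^ n := lintegral_mono h1
    _ = ∑' j, ∫⁻ x in Eᶜ, ‖a j • fderiv ℝ (bp β x0 (r j)) x‖ₑ ^ n :=
        lintegral_tsum fun j => (hmeas j).aemeasurable
    _ ≤ ∑' j : ℕ, (ENNReal.ofReal (2 * M) ^ n * volume (ball (0 : Eu n) 1)) * (2⁻¹ : ℝ≥0∞) ^ j :=
        ENNReal.tsum_le_tsum h2
    _ < ⊤ := by
        rw [ENNReal.tsum_mul_left, ENNReal.tsum_geometric]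
        apply ENNReal.mul_lt_top
        · exact ENNReal.mul_lt_top (ENNReal.pow_lt_top ENNReal.ofReal_lt_top) measure_ball_lt_top
        · rw [ENNReal.one_sub_inv_two, inv_inv]
          exact ENNReal.ofNat_lt_top

lemma gg_memLp : MemLp (gg β x0 r a) n (volume.restrict Eᶜ) := by
  refine ⟨D.gg_meas.aestronglyMeasurable, ?_⟩
  have hn := D.hn
  rw [eLpNorm_lt_top_iff_lintegral_rpow_enorm_lt_top (by simp; omega) (by simp)]
  simpa using D.gg_energy

lemma weak : WeakGrad Eᶜ (uu β x0 r a) (gg β x0 r a) := by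
  intro φ hφ hφc hφE v
  have hx0 : x0 ∉ tsupport φ := fun h => hφE h D.mem
  obtain ⟨δ, hδ, hδ2⟩ := Metric.isOpen_iff.1 (isClosed_tsupport φ).isOpen_compl x0 hx0
  obtain ⟨N, hN⟩ : ∃ N, 2 * r N < δ := by
    have h : ∀ j, r j ≤ r 0 * (1/2) ^ j := by
      intro j
      induction j with
      | zero => simp
      | succ j ih =>
        have := D.half j
        rw [pow_succ]
        linarith
    have h2 : Tendsto (fun j : ℕ => 2 * (r 0 * (1/2 : ℝ) ^ j)) atTop (𝓝 0) := by
      have := ((tendsto_pow_atTop_nhds_zero_of_lt_one (by norm_num : (0:ℝ) ≤ 1/2)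
        (by norm_num)).const_mul (r 0)).const_mul 2
      simpa using this
    obtain ⟨N, hN⟩ := ((tendsto_order.1 h2).2 δ hδ).exists
    exact ⟨N, by linarith [h N]⟩
  have hout : ∀ x ∈ tsupport φ, ∀ j, N ≤ j → x ∉ An x0 (r j) := by
    intro x hx j hj h
    have h1 : x ∈ ball x0 δ := by
      rw [mem_ball, dist_eq_norm]
      have := D.r_anti hj
      linarith [h.2]
    exact hδ2 h1 hx
  set S : Eu n → ℝ := fun x => ∑ i ∈ Finset.range N, a i * bp β x0 (r i) x with hS
  have hSc : ContDiff ℝ ∞ S := by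
    refine ContDiff.sum fun i _ => ?_
    exact contDiff_const.mul (bp_contDiff β x0 (r i))
  have hSf : ∀ x, fderiv ℝ S x = ∑ i ∈ Finset.range N, a i • fderiv ℝ (bp β x0 (r i)) x := by
    intro x
    have h : ∀ i ∈ Finset.range N, HasFDerivAt (fun x => a i * bp β x0 (r i) x)
        (a i • fderiv ℝ (bp β x0 (r i)) x) x := by
      intro i _
      exact (((bp_contDiff β x0 (r i)).differentiable (by simp)) x).hasFDerivAt.const_mul (a i)
    exact (HasFDerivAt.fun_sum h).fderiv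
  have hu : ∀ x ∈ tsupport φ, uu β x0 r a x = S x := by
    intro x hx
    by_cases h : ∃ j, x ∈ An x0 (r j)
    · obtain ⟨j, hj⟩ := h
      have hjN : j < N := by
        by_contra h2
        exact hout x hx j (not_lt.1 h2) hj
      rw [D.uu_on hj, hS]
      simp only
      rw [D.sum_on hj, if_pos hjN]
    · push Not at h
      rw [D.uu_off h, hS]
      simp only
      rw [D.sum_off h]
  have hg : ∀ x ∈ tsupport φ, gg β x0 r a x = fderiv ℝ S x := by
    intro x hx
    rw [hSf]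
    unfold gg
    apply tsum_eq_sum
    intro i hi
    rw [D.fb_zero (hout x hx i (by simpa using hi)), smul_zero]
  have h1 : ∫ x, uu β x0 r a x * fderiv ℝ φ x v = ∫ x, S x * fderiv ℝ φ x v := by
    apply integral_congr_ae
    refine .of_forall fun x => ?_
    by_cases hx : x ∈ tsupport φ
    · simp only [hu x hx]
    · have : fderiv ℝ φ x = 0 := by
        by_contra h
        exact hx (support_fderiv_subset ℝ h)
      simp [this]
  have h2 : ∫ x, φ x * gg β x0 r a x v = ∫ x, φ x * fderiv ℝ S x v := by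
    apply integral_congr_ae
    refine .of_forall fun x => ?_
    by_cases hx : x ∈ tsupport φ
    · simp only [hg x hx]
    · have : φ x = 0 := image_eq_zero_of_notMem_tsupport hx
      simp [this]
  rw [h1, h2]
  exact ibp (hSc.of_le (by simp)) hφ hφc v

lemma inW : InW Eᶜ (uu β x0 r a) :=
  ⟨(D.cont.memLp_of_hasCompactSupport D.supp).restrict _, gg β x0 r a, D.gg_memLp, D.weak⟩

lemma ae_eq {G : Eu n → Eu n →L[ℝ] ℝ} (hG : MemLp G n volume) (hW : WeakGrad univ (uu β x0 r a) G)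
    (j : ℕ) : ∀ᵐ x, x ∈ An x0 (r j) → G x - a j • fderiv ℝ (bp β x0 (r j)) x = 0 := by
  have hn := D.hn
  have hc1 : Continuous (fun x => a j • fderiv ℝ (bp β x0 (r j)) x) :=
    cfb β x0 (a j) (r j)
  have hGl : LocallyIntegrable G volume := hG.locallyIntegrable (by exact_mod_cast (by omega : 1 ≤ n))
  have hl : LocallyIntegrable (fun x => G x - a j • fderiv ℝ (bp β x0 (r j)) x) volume :=
    hGl.sub hc1.locallyIntegrable
  apply IsOpen.ae_eq_zero_of_integral_contDiff_smul_eq_zero (An_open x0 (r j))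
    (hl.locallyIntegrableOn _)
  intro g hg hgc hgs
  have hint : Integrable (fun x => g x • (G x - a j • fderiv ℝ (bp β x0 (r j)) x)) volume :=
    hl.integrable_smul_left_of_hasCompactSupport hg.continuous hgc
  ext v
  rw [ContinuousLinearMap.integral_apply hint]
  simp only [smul_apply, sub_apply, smul_eq_mul, zero_apply]
  have hi1 : Integrable (fun x => g x * G x v) volume := by
    have := (hGl.integrable_smul_left_of_hasCompactSupport hg.continuous hgc).apply_continuousLinearMap v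
    simpa using this
  have hi2 : Integrable (fun x => g x * (a j * fderiv ℝ (bp β x0 (r j)) x v)) volume := by
    have := (hc1.locallyIntegrable (μ := volume)).integrable_smul_left_of_hasCompactSupport
      hg.continuous hgc |>.apply_continuousLinearMap v
    simpa using this
  have e1 : ∫ x, g x * (G x v - a j * fderiv ℝ (bp β x0 (r j)) x v) =
      (∫ x, g x * G x v) - ∫ x, g x * (a j * fderiv ℝ (bp β x0 (r j)) x v) := by
    rw [← integral_sub hi1 hi2]
    congr 1
    ext x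
    ring
  rw [e1]
  have e2 := hW g hg hgc (subset_univ _) v
  have e3 : ∫ x, uu β x0 r a x * fderiv ℝ g x v =
      a j * ∫ x, bp β x0 (r j) x * fderiv ℝ g x v := by
    rw [← integral_const_mul]
    apply integral_congr_ae
    refine .of_forall fun x => ?_
    by_cases hx : x ∈ tsupport g
    · simp only [D.uu_on (hgs hx)]
      ring
    · have : fderiv ℝ g x = 0 := by
        by_contra h
        exact hx (support_fderiv_subset ℝ h)
      simp [this]
  have e4 := ibp ((bp_contDiff β x0 (r j)).of_le (by simp)) hg hgc v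
  have e5 : ∫ x, g x * (a j * fderiv ℝ (bp β x0 (r j)) x v) =
      a j * ∫ x, g x * fderiv ℝ (bp β x0 (r j)) x v := by
    rw [← integral_const_mul]
    congr 1
    ext x
    ring
  rw [e5]
  rw [e3, e4] at e2
  linarith

lemma contra (h : InW univ (uu β x0 r a)) : False := by
  obtain ⟨-, G, hG, hW⟩ := h
  rw [Measure.restrict_univ] at hG
  have hn := D.hn
  have h1 : ∫⁻ x, ‖G x‖ₑ ^ n < ⊤ := by
    have := (eLpNorm_lt_top_iff_lintegral_rpow_enorm_lt_top (p := (n : ℝ≥0∞)) (f := G)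
      (μ := volume) (by simp; omega) (by simp)).1 hG.2
    simpa using this
  have hmeas : ∀ j, MeasurableSet (An x0 (r j)) := fun j => (An_open x0 (r j)).measurableSet
  have h2 : ∀ j, ∫⁻ x in An x0 (r j), ‖G x‖ₑ ^ n =
      ENNReal.ofReal ((j : ℝ) + 1)⁻¹ * ∫⁻ x, ‖fderiv ℝ β x‖ₑ ^ n := by
    intro j
    have e1 : ∫⁻ x in An x0 (r j), ‖G x‖ₑ ^ n =
        ∫⁻ x in An x0 (r j), ‖a j • fderiv ℝ (bp β x0 (r j)) x‖ₑ ^ n := by
      apply setLIntegral_congr_fun_ae (hmeas j)
      filter_upwards [D.ae_eq hG hW j] with x hx hxA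
      rw [sub_eq_zero.1 (hx hxA)]
    have e2 : ∫⁻ x in An x0 (r j), ‖a j • fderiv ℝ (bp β x0 (r j)) x‖ₑ ^ n =
        ∫⁻ x, ‖a j • fderiv ℝ (bp β x0 (r j)) x‖ₑ ^ n := by
      rw [← lintegral_indicator (hmeas j)]
      congr 1
      ext x
      by_cases hx : x ∈ An x0 (r j)
      · rw [indicator_of_mem hx]
      · rw [indicator_of_notMem hx, D.fb_zero hx]
        simp [en0, show n ≠ 0 by omega]
    have hcont : Continuous (fun x => fderiv ℝ (bp β x0 (r j)) x) :=
      (bp_contDiff β x0 (r j)).continuous_fderiv (by simp)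
    rw [e1, e2]
    simp_rw [enorm_smul, mul_pow]
    rw [lintegral_const_mul _ (hcont.measurable.enorm.pow_const n), bp_energy β x0 (D.pos j),
      Real.enorm_of_nonneg (D.a0 j), ← ENNReal.ofReal_pow (D.a0 j), D.apow]
  have h3 : ∑' j, ∫⁻ x in An x0 (r j), ‖G x‖ₑ ^ n ≤ ∫⁻ x, ‖G x‖ₑ ^ n := by
    rw [← lintegral_iUnion hmeas]
    · exact setLIntegral_le_lintegral _ _
    · intro i j hij
      rw [Function.onFun, Set.disjoint_left]
      intro x hx
      exact D.disj hij hx
  simp_rw [h2] at h3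
  rw [ENNReal.tsum_mul_right] at h3
  have h4 : ∑' j : ℕ, ENNReal.ofReal ((j : ℝ) + 1)⁻¹ = ⊤ := by
    by_contra hne
    have h5 : Summable (fun j : ℕ => ((j : ℝ) + 1)⁻¹) := by
      have h6 := ENNReal.summable_toReal hne
      refine h6.congr fun j => ?_
      rw [ENNReal.toReal_ofReal (by positivity)]
    have h7 : Summable (fun j : ℕ => ((j : ℝ))⁻¹) := by
      rw [← summable_nat_add_iff 1]
      simpa using h5
    exact Real.not_summable_natCast_inv h7
  rw [h4, ENNReal.top_mul (energy_pos β hn D.hc D.hβ)] at h3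
  exact absurd (h3.trans_lt h1) (by simp)

end Data

end J144

open J144 in
/-- closed sets which are removable for continuous `W^{1,n}` functions have measure zero -/
theorem volume_zero_of_removable {n : ℕ} (hn : 2 ≤ n) {E : Set (Eu n)} (hE : IsClosed E)
    (hrem : ∀ u : Eu n → ℝ, Continuous u → InW Eᶜ u → InW univ u) : volume E = 0 := by
  by_contra hvol
  -- a density point
  have hd := Besicovitch.ae_tendsto_measure_inter_div_of_measurableSet (volume : Measure (Eu n))
    hE.measurableSet.compl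
  obtain ⟨x0, hx0E, hx0⟩ : ∃ x0 ∈ E, Tendsto
      (fun r => volume (Eᶜ ∩ closedBall x0 r) / volume (closedBall x0 r)) (𝓝[>] 0) (𝓝 0) := by
    by_contra hcon
    push Not at hcon
    apply hvol
    have : E ⊆ {x | ¬ Tendsto (fun r => volume (Eᶜ ∩ closedBall x r) / volume (closedBall x r))
        (𝓝[>] 0) (𝓝 ((Eᶜ).indicator 1 x))} := by
      intro x hx
      have h2 : (Eᶜ).indicator (1 : Eu n → ℝ≥0∞) x = 0 := by
        rw [indicator_of_notMem (by simpa using hx)]
      rw [mem_ofPred_eq, h2]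
      exact hcon x hx
    exact measure_mono_null this hd
  have hδ : ∀ j : ℕ, ∃ δ : ℝ, 0 < δ ∧ ∀ s, 0 < s → s < δ →
      volume (Eᶜ ∩ closedBall x0 s) ≤ (2⁻¹ : ℝ≥0∞) ^ j * volume (closedBall x0 s) := by
    intro j
    have h1 : ∀ᶠ s in 𝓝[>] (0:ℝ),
        volume (Eᶜ ∩ closedBall x0 s) / volume (closedBall x0 s) < (2⁻¹ : ℝ≥0∞) ^ j := by
      apply (tendsto_order.1 hx0).2
      apply ENNReal.pow_pos
      simp
    obtain ⟨δ, hδ, hδ2⟩ := mem_nhdsGT_iff_exists_Ioo_subset.1 h1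
    refine ⟨δ, hδ, fun s hs hsδ => ?_⟩
    have h2 := hδ2 ⟨hs, hsδ⟩
    have h3 : volume (closedBall x0 s) ≠ 0 := (measure_closedBall_pos volume x0 hs).ne'
    have h4 : volume (closedBall x0 s) ≠ ⊤ := measure_closedBall_lt_top.ne
    exact ((ENNReal.div_lt_iff (Or.inl h3) (Or.inl h4)).1 h2).le
  choose δ hδ0 hδ using hδ
  let r : ℕ → ℝ := fun j => Nat.rec (δ 0 / 4) (fun j s => min (s / 2) (δ (j + 1) / 4)) j
  have hr0 : r 0 = δ 0 / 4 := rfl
  have hrs : ∀ j, r (j + 1) = min (r j / 2) (δ (j + 1) / 4) := fun j => rfl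
  have hrpos : ∀ j, 0 < r j := by
    intro j
    induction j with
    | zero => rw [hr0]; linarith [hδ0 0]
    | succ j ih =>
      rw [hrs]
      exact lt_min (by linarith) (by linarith [hδ0 (j + 1)])
  have hrδ : ∀ j, r j ≤ δ j / 4 := by
    intro j
    cases j with
    | zero => rw [hr0]
    | succ j => rw [hrs]; exact min_le_right _ _
  let c : Eu n := EuclideanSpace.single ⟨0, by omega⟩ (3/2 : ℝ)
  have hc : ‖c‖ = 3/2 := by
    simp only [c, PiLp.norm_single]
    norm_num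
  let β : ContDiffBump c := ⟨1/8, 1/4, by norm_num, by norm_num⟩
  let a : ℕ → ℝ := fun j => (((j : ℝ) + 1)⁻¹) ^ ((n : ℝ)⁻¹)
  have hn0 : (n : ℝ) ≠ 0 := by positivity
  have D : Data β x0 E r a := by
    refine ⟨hn, hc, rfl, hx0E, hE, hrpos, fun j => ?_, fun j => ?_, fun j => ?_, fun j => ?_,
      ?_, ?_, fun j => ?_⟩
    · rw [hrs]; exact min_le_left _ _
    · exact hδ j _ (by linarith [hrpos j]) (by linarith [hrδ j, hδ0 j])
    · simp only [a]; positivity
    · apply Real.rpow_le_one (by positivity) _ (by positivity)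
      apply inv_le_one_of_one_le₀
      linarith [(Nat.cast_nonneg j : (0:ℝ) ≤ j)]
    · intro i j hij
      simp only [a]
      apply Real.rpow_le_rpow (by positivity) _ (by positivity)
      gcongr
    · have h1 : Tendsto (fun j : ℕ => ((j : ℝ) + 1)⁻¹) atTop (𝓝 0) := by
        have := tendsto_one_div_add_atTop_nhds_zero_nat (𝕜 := ℝ)
        simpa using this
      have h2 := h1.rpow_const (p := (n : ℝ)⁻¹) (Or.inr (by positivity))
      rw [Real.zero_rpow (by positivity)] at h2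
      exact h2
    · simp only [a]
      rw [← Real.rpow_natCast, ← Real.rpow_mul (by positivity), inv_mul_cancel₀ hn0, Real.rpow_one]
  exact D.contra (hrem _ D.cont D.inW)

end Pool.Agent.TH221
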